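import Pool.Agent.PSS.StmtsS0

/-!
# PSS.IND (helper95): the relative trace does not depend on the relative Frobenius system
-/

open scoped BigOperators TensorProduct

noncomputable section

namespace Pool.Agent.PSS.S0.H95

open Pool.Agent.PSS Pool.Agent.PSS.S0

theorem ind : IndStmt := by
  intro R V A K K' _ _ _ _ _ _ _ α lam x y x' y' h1 h2 a ha
  have hc : ∀ v : V, α v * a = a * α v := by
    intro v
    have h := ha v (Subgroup.mem_top v)
    have h3 : α v * (a * α v⁻¹) = a := h
    calc α v * a = α v * (a * α v⁻¹) * α v := by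
          rw [mul_assoc, mul_assoc, ← map_mul, inv_mul_cancel, map_one, mul_one]
      _ = a * α v := by rw [h3]
  have e1 : ∀ k, x k * a * y k =
      ∑ j, ∑ v, lam (y k * x' j * α v) • (x k * a * (α v⁻¹ * y' j)) := by
    intro k
    conv_lhs => rw [← h2.e2 (y k)]
    rw [Finset.mul_sum]
    refine Finset.sum_congr rfl fun j _ => ?_
    rw [Finset.mul_sum]
    refine Finset.sum_congr rfl fun v _ => ?_
    rw [mul_smul_comm, ← mul_assoc (y k)]
  have e2 : ∀ j, x' j * a * y' j =
      ∑ k, ∑ v, lam (y k * x' j * α v) • (x k * a * (α v⁻¹ * y' j)) := by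
    intro j
    conv_lhs => rw [← h1.e1 (x' j)]
    rw [Finset.sum_mul, Finset.sum_mul]
    refine Finset.sum_congr rfl fun k _ => ?_
    rw [Finset.sum_mul, Finset.sum_mul]
    rw [← Equiv.sum_comp (Equiv.inv V)]
    refine Finset.sum_congr rfl fun v _ => ?_
    show lam (α (v⁻¹)⁻¹ * y k * x' j) • (x k * α v⁻¹) * a * y' j = _
    rw [inv_inv, mul_assoc (α v) (y k) (x' j), h1.sym (α v), smul_mul_assoc, smul_mul_assoc]
    congr 1
    rw [mul_assoc (x k) (α v⁻¹) a, hc v⁻¹, ← mul_assoc (x k) a, mul_assoc]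
  calc ∑ k, x k * a * y k
      = ∑ k, ∑ j, ∑ v, lam (y k * x' j * α v) • (x k * a * (α v⁻¹ * y' j)) :=
        Finset.sum_congr rfl fun k _ => e1 k
    _ = ∑ j, ∑ k, ∑ v, lam (y k * x' j * α v) • (x k * a * (α v⁻¹ * y' j)) :=
        Finset.sum_comm
    _ = ∑ j, x' j * a * y' j := (Finset.sum_congr rfl fun j _ => e2 j).symm

end Pool.Agent.PSS.S0.H95
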