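import Pool.Agent.PSS.StmtsS1d

/-!
# PSS.CFR (helper95): the constant frame of the ring of a deformation
-/

open scoped BigOperators TensorProduct

noncomputable section

namespace Pool.Agent.PSS.H95

open Pool.Agent.PFD.D2b (FrR)
open Finset
open Dm (cst)

/-- product of a sequence with a group element on the right -/
theorem cfr_mul_cst_right {k W A : Type} [CommRing k] [Group W] [Ring A] [Algebra k A]
    {om : W →* A} (D : Dm k om) (w : W) (f : ℕ → A) :
    D.mul f (cst (om w)) = fun n => f n * om w := by
  funext n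
  rw [Dm.mul, Finset.sum_eq_single (0, n)]
  · rw [Finset.sum_eq_single (n, 0)]
    · simp only [cst, if_true, D.m0]
    · rintro ⟨a, b⟩ h hne
      rcases b with _ | b
      · rw [Finset.HasAntidiagonal.mem_antidiagonal] at h
        simp only [add_zero] at h
        exact absurd (by rw [h]) hne
      · simp [cst]
    · intro h
      exact absurd (by rw [Finset.HasAntidiagonal.mem_antidiagonal]; simp) h
  · rintro ⟨a, b⟩ h hne
    rcases a with _ | a
    · rw [Finset.HasAntidiagonal.mem_antidiagonal] at h
      simp only [zero_add] at h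
      exact absurd (by rw [h]) hne
    · refine Finset.sum_eq_zero fun q _ => ?_
      rw [cst]
      split_ifs
      · exact D.m_om_right a w _
      · rw [map_zero]
  · intro h
    exact absurd (by rw [Finset.HasAntidiagonal.mem_antidiagonal]; simp) h

theorem cfr_of_mul_w {k W A : Type} [CommRing k] [Group W] [Ring A] [Algebra k A]
    {om : W →* A} (D : Dm k om) (w : W) (f : ℕ → A) :
    D.of f * D.w w = D.of (fun n => f n * om w) := by
  show D.of f * D.of (cst (om w)) = _
  rw [← D.of_mul, cfr_mul_cst_right]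

theorem cfr_bw {k W A : Type} [CommRing k] [CommGroup W] [Ring A] [Algebra k A]
    {om : W →* A} (D : Dm k om) (g : W × W) (f : ℕ → A) :
    bw (PowerSeries k) D.w g (D.of f) = D.of (fun n => bw k om g (f n)) := by
  show D.w g.1 * (D.of f * D.w g.2⁻¹) = _
  rw [cfr_of_mul_w, D.w_mul_of]
  rfl

theorem cfr_smulq_cst {k A : Type} [CommRing k] [Ring A] [Algebra k A]
    (r : PowerSeries k) (a : A) (n : ℕ) :
    Dm.smulq r (cst a) n = PowerSeries.coeff n r • a := by
  rw [Dm.smulq, Finset.sum_eq_single (n, 0)]
  · simp [cst]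
  · rintro ⟨x, y⟩ h hne
    rcases y with _ | y
    · rw [Finset.HasAntidiagonal.mem_antidiagonal] at h
      simp only [add_zero] at h
      exact absurd (by rw [h]) hne
    · simp [cst]
  · intro h
    exact absurd (by rw [Finset.HasAntidiagonal.mem_antidiagonal]; simp) h

theorem cfr_cst_fun {A B : Type} [Ring A] [Ring B] (φ : A → B) (h : φ 0 = 0) (a : A) :
    (fun n => φ (cst a n)) = cst (φ a) := by
  funext n
  rw [cst, cst]
  split_ifs
  · rfl
  · exact h

theorem cfr (hFun : FunStmt) : CfrStmt := by
  intro k W A Ω _ _ _ _ _ _ om D b c hF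
  obtain ⟨hb, hc, hs⟩ := hF
  have hex : ∀ ω : Ω, ∃ Λ : D.R →ₗ[PowerSeries k] PowerSeries k,
      ∀ f n, PowerSeries.coeff n (Λ (D.of f)) = c ω (f n) := by
    intro ω
    obtain ⟨Λ, hΛ⟩ := (hFun k W A om D).1 (fun n => if n = 0 then c ω else 0)
    refine ⟨Λ, fun f n => ?_⟩
    rw [hΛ, Finset.sum_eq_single (0, n)]
    · rw [if_pos rfl]
    · rintro ⟨x, y⟩ h hne
      rcases x with _ | x
      · rw [Finset.HasAntidiagonal.mem_antidiagonal] at h
        simp only [zero_add] at h
        exact absurd (by rw [h]) hne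
      · rw [if_neg (Nat.succ_ne_zero x), LinearMap.zero_apply]
    · intro h
      exact absurd (by rw [Finset.HasAntidiagonal.mem_antidiagonal]; simp) h
  choose cs hcs using hex
  refine ⟨cs, ⟨?_, ?_, ?_⟩, hcs⟩
  · intro g t
    show D.of (cst (b (g • t))) = bw (PowerSeries k) D.w g (D.of (cst (b t)))
    rw [cfr_bw, cfr_cst_fun (fun a => bw k om g a) (map_zero _) (b t), hb]
  · intro g t x
    rw [← D.of_sq x, cfr_bw]
    refine PowerSeries.ext fun n => ?_
    rw [hcs, hcs, hc]
  · intro x
    have h1 : ∀ t : Ω, cs t x • D.of (cst (b t)) =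
        (AddMonoidHom.mk' D.of D.of_add) (fun n => c t (D.sq x n) • b t) := by
      intro t
      show _ = D.of (fun n => c t (D.sq x n) • b t)
      rw [← D.of_smul]
      congr 1
      funext n
      rw [cfr_smulq_cst]
      conv_lhs => rw [← D.of_sq x]
      rw [hcs]
    have h2 : ∑ t, cs t x • D.of (cst (b t)) =
        ∑ t, (AddMonoidHom.mk' D.of D.of_add) (fun n => c t (D.sq x n) • b t) :=
      Finset.sum_congr rfl fun t _ => h1 t
    show ∑ t, cs t x • D.of (cst (b t)) = x
    rw [h2, ← map_sum]
    show D.of _ = x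
    conv_rhs => rw [← D.of_sq x]
    congr 1
    funext n
    rw [Finset.sum_apply]
    exact hs (D.sq x n)

end Pool.Agent.PSS.H95
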