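import Pool.Agent.PSS.StmtsS1a

/-!
# PSS.CSU (helper95): if `rt x y 1` is a unit, there are Casimir families with `∑ u_i v_i = 1`
-/

open scoped BigOperators TensorProduct

noncomputable section

namespace Pool.Agent.PSS.H95

open Pool.Agent.PSS
open Finset

theorem csu (hCsr : CsrStmt) (hRtc : RtcStmt) : CsuStmt := by
  intro k V A K _ _ _ _ _ _ α lam x y u hRF hu
  have hz : ∀ b, b * rt x y 1 = rt x y 1 * b :=
    (hRtc k V A K K α lam x y hRF).1 1 (fun v => by rw [mul_one, one_mul])
  have huc : ∀ b, u * b = b * u := by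
    intro b
    have hzu : rt x y 1 * u = 1 := by rw [← hz u, hu]
    calc u * b = u * b * (rt x y 1 * u) := by rw [hzu, mul_one]
      _ = u * (b * rt x y 1) * u := by simp only [mul_assoc]
      _ = u * (rt x y 1 * b) * u := by rw [hz b]
      _ = (u * rt x y 1) * b * u := by simp only [mul_assoc]
      _ = b * u := by rw [hu, one_mul]
  refine ⟨huc, ?_, ?_⟩
  · have h1 : ∑ i, x i * (y i * u) = rt x y 1 * u := by
      rw [rt, Finset.sum_mul]
      refine Finset.sum_congr rfl fun i _ => ?_
      rw [mul_one, mul_assoc]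
    rw [h1, ← hz u, hu]
  · intro X _ _ f hf a
    have h2 := hCsr k V A K X α lam x y hRF (f.compl₂ (LinearMap.mulRight k u)) (by
      intro a g b
      rw [LinearMap.compl₂_apply, LinearMap.compl₂_apply, LinearMap.mulRight_apply,
        LinearMap.mulRight_apply, hf, mul_assoc]) a
    simp only [LinearMap.compl₂_apply, LinearMap.mulRight_apply] at h2
    rw [h2]
    refine Finset.sum_congr rfl fun i _ => ?_
    rw [mul_assoc, mul_assoc, ← huc a]

end Pool.Agent.PSS.H95
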