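import Pool.Agent.PSS.StmtsS2

/-!
# PSS.TOR (helper95): trivialisation of a cocycle of translations on a set with an action
-/

noncomputable section

namespace Pool.Agent.PSS.S2.H95

open Pool.Agent.PSS.S2

theorem tor : TorStmt := by
  intro G Ω B _ _ _ ψ h1 h2 h3
  have hex : ∀ ω : Ω, ∃ g : G,
      g • (Quotient.out (Quotient.mk (MulAction.orbitRel G Ω) ω)) = ω := by
    intro ω
    have h : (MulAction.orbitRel G Ω).r
        (Quotient.out (Quotient.mk (MulAction.orbitRel G Ω) ω)) ω :=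
      Quotient.exact (Quotient.out_eq (Quotient.mk (MulAction.orbitRel G Ω) ω))
    obtain ⟨g, hg⟩ := (MulAction.orbitRel_apply (G := G)).1 h
    refine ⟨g⁻¹, ?_⟩
    rw [← hg]
    exact inv_smul_smul g ω
  have hr : ∀ (g : G) (ω : Ω), Quotient.mk (MulAction.orbitRel G Ω) (g • ω) =
      Quotient.mk (MulAction.orbitRel G Ω) ω := by
    intro g ω
    exact Quotient.sound ((MulAction.orbitRel_apply (G := G)).2 ⟨g, rfl⟩)
  choose s hs using hex
  refine ⟨fun ω => ψ (Quotient.out (Quotient.mk (MulAction.orbitRel G Ω) ω)) (s ω), ?_⟩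
  intro g ω
  show ψ (Quotient.out (Quotient.mk (MulAction.orbitRel G Ω) (g • ω))) (s (g • ω)) = _
  have e1 := hs (g • ω)
  have e2 := hs ω
  rw [hr g ω] at e1 ⊢
  set r : Ω := Quotient.out (Quotient.mk (MulAction.orbitRel G Ω) ω) with hrd
  have e3 : ((g * s ω)⁻¹ * s (g • ω)) • r = r := by
    rw [mul_smul, e1, inv_smul_eq_iff, mul_smul, e2]
  have e4 : s (g • ω) = (g * s ω) * ((g * s ω)⁻¹ * s (g • ω)) := by
    rw [mul_inv_cancel_left]
  have e5 : ψ r g = ψ ω g := by
    rw [← h1 r (s ω), e2]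
  rw [e4, h2 r, h3 r _ e3, add_zero, h2 r, e5, add_comm]

end Pool.Agent.PSS.S2.H95
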