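import Pool.Agent.PSS.StmtsS5

/-!
# PSS.MDV (helper95): all composition factors of `L` are the simple module of dimension `n`
-/

open scoped BigOperators TensorProduct

noncomputable section

namespace Pool.Agent.PSS.S5.H95

open Pool.Agent.PSS.S5

theorem mdv : MdvStmt := by
  intro F A _ _ _ _ n π hπ hker L hL
  have hone : ∀ a b : A, π a = π b → ∃ u : A, u * (1 + (a - b)) = 1 := by
    intro a b hab
    have h1 : IsNilpotent (a - b) := hker _ (by rw [map_sub, hab, sub_self])
    obtain ⟨u, hu⟩ := h1.isUnit_one_add
    refine ⟨(u⁻¹ : Aˣ), ?_⟩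
    rw [← hu]
    exact u.inv_mul
  cases n with
  | zero =>
    have h0 : (1 : A) = 0 := by
      have h2 : IsNilpotent (1 : A) := hker 1 (Subsingleton.elim _ _)
      obtain ⟨k, hk⟩ := h2
      rw [one_pow] at hk
      exact hk
    haveI : Subsingleton A := subsingleton_of_zero_eq_one h0.symm
    haveI : Subsingleton L := ⟨fun x y => Subtype.ext (Subsingleton.elim _ _)⟩
    rw [Module.finrank_zero_of_subsingleton]
  | succ m =>
    have hco : CompleteOrthogonalIdempotents
        (fun i : Fin (m + 1) => (Matrix.single i i (1 : F) : Matrix (Fin (m + 1)) (Fin (m + 1)) F)) := by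
      refine ⟨⟨fun i => ?_, fun i j hij => ?_⟩, ?_⟩
      · show Matrix.single i i (1 : F) * Matrix.single i i (1 : F) = Matrix.single i i (1 : F)
        rw [Matrix.single_mul_single_same, mul_one]
      · show Matrix.single i i (1 : F) * Matrix.single j j (1 : F) = 0
        rw [Matrix.single_mul_single_of_ne (h := hij)]
      · exact Matrix.sum_single_one
    obtain ⟨e, he, hπe⟩ := CompleteOrthogonalIdempotents.lift_of_isNilpotent_ker
      (π : A →+* Matrix (Fin (m + 1)) (Fin (m + 1)) F) (fun x hx => hker x hx) hco
      (fun i => ⟨(hπ _).choose, (hπ _).choose_spec⟩)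
    have hπe' : ∀ i, π (e i) = Matrix.single i i (1 : F) := fun i => congrFun hπe i
    choose w hw using fun i j : Fin (m + 1) => hπ (Matrix.single i j (1 : F))
    set u : Fin (m + 1) → Fin (m + 1) → A := fun i j => e i * w i j * e j with hu
    have hπu : ∀ i j, π (u i j) = Matrix.single i j (1 : F) := by
      intro i j
      show π (e i * w i j * e j) = _
      rw [map_mul, map_mul, hπe', hπe', hw, Matrix.single_mul_single_same,
        Matrix.single_mul_single_same, mul_one, mul_one]
    have heu : ∀ i j, e i * u i j = u i j := by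
      intro i j
      show e i * (e i * w i j * e j) = e i * w i j * e j
      rw [← mul_assoc, ← mul_assoc, (he.idem i).eq]
    have hort : ∀ i j k l, j ≠ k → u i j * u k l = 0 := by
      intro i j k l hjk
      show e i * w i j * e j * (e k * w k l * e l) = 0
      have h : e j * e k = 0 := he.ortho hjk
      calc e i * w i j * e j * (e k * w k l * e l)
          = e i * w i j * (e j * e k) * w k l * e l := by simp only [mul_assoc]
        _ = 0 := by rw [h, mul_zero, zero_mul, zero_mul]
    -- a product `u i j * u j i` acts injectively on `e i A`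
    have hinj : ∀ i j (x : A), e i * x = x → u i j * (u j i * x) = 0 → x = 0 := by
      intro i j x hx h0
      have h1 : π (u i j * u j i) = π (e i) := by
        rw [map_mul, hπu, hπu, hπe', Matrix.single_mul_single_same, mul_one]
      obtain ⟨y, hy⟩ := hone _ _ h1
      have h2 : (1 + (u i j * u j i - e i)) * x = 0 := by
        rw [add_mul, one_mul, sub_mul, hx, mul_assoc, h0, zero_sub, add_neg_cancel]
      calc x = (y * (1 + (u i j * u j i - e i))) * x := by rw [hy, one_mul]
        _ = y * ((1 + (u i j * u j i - e i)) * x) := mul_assoc _ _ _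
        _ = 0 := by rw [h2, mul_zero]
    set M : Submodule F A := L.map (LinearMap.mulLeft F (e 0)) with hM
    have hMx : ∀ x ∈ M, e 0 * x = x ∧ x ∈ L := by
      rintro _ ⟨l, hl, rfl⟩
      refine ⟨?_, hL _ _ hl⟩
      show e 0 * (e 0 * l) = e 0 * l
      rw [← mul_assoc, (he.idem 0).eq]
    -- first map
    have hf1 : ∀ i : Fin (m + 1), ∀ l : L, u 0 i * (l : A) ∈ M := by
      intro i l
      refine ⟨u 0 i * (l : A), hL _ _ l.2, ?_⟩
      show e 0 * (u 0 i * (l : A)) = u 0 i * (l : A)
      rw [← mul_assoc, heu]
    let f : L →ₗ[F] (Fin (m + 1) → M) := LinearMap.pi fun i =>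
      LinearMap.codRestrict M ((LinearMap.mulLeft F (u 0 i)).comp L.subtype) (hf1 i)
    have hfinj : Function.Injective f := by
      rw [injective_iff_map_eq_zero]
      intro l hl
      have h1 : ∀ i, u 0 i * (l : A) = 0 := by
        intro i
        have h2 : ((f l i : M) : A) = 0 := by rw [hl]; rfl
        exact h2
      have h3 : ∀ i, e i * (l : A) = 0 := by
        intro i
        refine hinj i 0 (e i * (l : A)) (by rw [← mul_assoc, (he.idem i).eq]) ?_
        have h4 : u 0 i * (e i * (l : A)) = u 0 i * (l : A) := by
          show e 0 * w 0 i * e i * (e i * (l : A)) = e 0 * w 0 i * e i * (l : A)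
          rw [← mul_assoc, mul_assoc (e 0 * w 0 i), (he.idem i).eq]
        rw [h4, h1, mul_zero]
      apply Subtype.ext
      show (l : A) = 0
      calc (l : A) = (∑ i, e i) * (l : A) := by rw [he.complete, one_mul]
        _ = ∑ i, e i * (l : A) := Finset.sum_mul _ _ _
        _ = 0 := Finset.sum_eq_zero fun i _ => h3 i
    -- second map
    have hg1 : ∀ x : Fin (m + 1) → M, ∑ i, u i 0 * ((x i : M) : A) ∈ L := by
      intro x
      exact Submodule.sum_mem _ fun i _ => hL _ _ (hMx _ (x i).2).2
    let g0 : (Fin (m + 1) → M) →ₗ[F] A := ∑ i : Fin (m + 1),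
      (LinearMap.mulLeft F (u i 0)).comp (M.subtype.comp (LinearMap.proj i))
    have hg0 : ∀ x, g0 x = ∑ i, u i 0 * ((x i : M) : A) := by
      intro x
      show (∑ i : Fin (m + 1),
        (LinearMap.mulLeft F (u i 0)).comp (M.subtype.comp (LinearMap.proj i))) x = _
      rw [LinearMap.sum_apply]
      rfl
    let g : (Fin (m + 1) → M) →ₗ[F] L := LinearMap.codRestrict L g0 (fun x => by
      rw [hg0]
      exact hg1 x)
    have hginj : Function.Injective g := by
      rw [injective_iff_map_eq_zero]
      intro x hx
      have h1 : ∑ i, u i 0 * ((x i : M) : A) = 0 := by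
        rw [← hg0]
        have h2 : ((g x : L) : A) = 0 := by rw [hx]; rfl
        exact h2
      funext j
      apply Subtype.ext
      show ((x j : M) : A) = 0
      refine hinj 0 j _ (hMx _ (x j).2).1 ?_
      have h2 : u 0 j * ∑ i, u i 0 * ((x i : M) : A) = 0 := by rw [h1, mul_zero]
      rw [Finset.mul_sum, Finset.sum_eq_single j] at h2
      · exact h2
      · intro i _ hij
        rw [← mul_assoc, hort 0 j i 0 hij.symm, zero_mul]
      · intro h
        exact absurd (Finset.mem_univ j) h
    have h1 := LinearMap.finrank_le_finrank_of_injective hfinj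
    have h2 := LinearMap.finrank_le_finrank_of_injective hginj
    have h3 : Module.finrank F (Fin (m + 1) → M) = (m + 1) * Module.finrank F M := by
      rw [Module.finrank_pi_fintype, Finset.sum_const, Finset.card_univ, Fintype.card_fin,
        smul_eq_mul]
    rw [h3] at h1 h2
    exact ⟨Module.finrank F M, le_antisymm h1 h2⟩

end Pool.Agent.PSS.S5.H95
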